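import Pool.Agent.W172.WL.Stm

/-!
WL-LOWM: the measure theoretic part of the lower bound.
-/

set_option autoImplicit false

open MeasureTheory Set Filter Topology Metric
open scoped ENNReal NNReal

namespace Pool.Agent.W397.WL

open Pool.Agent.W172.WL

theorem Hol_cont {α : ℝ} (hα : 0 < α) {f : ℝ → ℝ} (h : Hol α f) : Continuous f := by
  obtain ⟨C, hC⟩ := h
  rw [continuous_iff_continuousAt]
  intro x
  rw [ContinuousAt, tendsto_iff_dist_tendsto_zero]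
  have h1 : Tendsto (fun y => C * |y - x| ^ α) (𝓝 x) (𝓝 0) := by
    have h0 : Continuous (fun y : ℝ => C * |y - x| ^ α) :=
      continuous_const.mul
        ((continuous_id.sub continuous_const).abs.rpow_const (fun _ => Or.inr hα.le))
    have h2 := h0.tendsto x
    simpa [Real.zero_rpow hα.ne'] using h2
  exact squeeze_zero (fun y => dist_nonneg) (fun y => by rw [Real.dist_eq]; exact hC y x) h1

/-- the cell -/
def cell (b : ℕ) (t : ℕ × ℕ) : Set ℝ :=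
  Ico ((t.2 : ℝ) / (b : ℝ) ^ t.1) (((t.2 : ℝ) + 1) / (b : ℝ) ^ t.1)

/-- occupation measure of a cell -/
noncomputable def mu (b : ℕ) (f : ℝ → ℝ) (t : ℕ × ℕ) : Measure ℝ :=
  (volume.restrict (cell b t)).map f

instance (b : ℕ) (f : ℝ → ℝ) (t : ℕ × ℕ) : IsFiniteMeasure (mu b f t) := by
  unfold mu cell
  infer_instance

theorem mu_apply {b : ℕ} {f : ℝ → ℝ} (hf : Continuous f) (t : ℕ × ℕ) {A : Set ℝ}
    (hA : MeasurableSet A) : mu b f t A = volume {x : ℝ | x ∈ cell b t ∧ f x ∈ A} := by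
  unfold mu
  rw [Measure.map_apply hf.measurable hA, Measure.restrict_apply (hf.measurable hA)]
  congr 1
  ext x
  exact and_comm

/-- the bad set -/
def bad (b : ℕ) (f : ℝ → ℝ) (s : ℝ) (t : ℕ × ℕ) : Set ℝ :=
  {y | ENNReal.ofReal ((b : ℝ) ^ (-(s * t.1))) < (mu b f t).rnDeriv volume y}

theorem bad_meas (b : ℕ) (f : ℝ → ℝ) (s : ℝ) (t : ℕ × ℕ) : MeasurableSet (bad b f s t) :=
  measurableSet_lt measurable_const (Measure.measurable_rnDeriv _ _)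

theorem bad_bound {b : ℕ} {α s : ℝ} (hb : 2 ≤ b) {f : ℝ → ℝ} (hf : Continuous f) {M : ℝ≥0}
    (n z : ℕ) (hM : ∀ A : Set ℝ, MeasurableSet A →
    volume {x : ℝ | x ∈ Ico ((z : ℝ) / (b : ℝ) ^ n) (((z : ℝ) + 1) / (b : ℝ) ^ n) ∧ f x ∈ A} ≤
      (M : ℝ≥0∞) * ENNReal.ofReal ((b : ℝ) ^ (-((1 - α / 2) * n))) * (volume A) ^ (1 / 2 : ℝ)) :
    mu b f (n, z) (bad b f s (n, z)) ≤
      ENNReal.ofReal ((M : ℝ) ^ 2 * (b : ℝ) ^ (-((2 - α - s) * n))) := by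
  have hb0 : (0 : ℝ) < b := by exact_mod_cast (by omega : 0 < b)
  have hAm := bad_meas b f s (n, z)
  set A := bad b f s (n, z) with hA
  set t : ℝ := (b : ℝ) ^ (-(s * n)) with ht
  have ht0 : 0 < t := Real.rpow_pos_of_pos hb0 _
  set β : ℝ := (b : ℝ) ^ (-((1 - α / 2) * n)) with hβ
  have hβ0 : 0 < β := Real.rpow_pos_of_pos hb0 _
  have h1 : ENNReal.ofReal t * volume A ≤ mu b f (n, z) A := by
    calc ENNReal.ofReal t * volume A = ∫⁻ _ in A, ENNReal.ofReal t := by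
          rw [setLIntegral_const]
      _ ≤ ∫⁻ y in A, (mu b f (n, z)).rnDeriv volume y := by
          apply setLIntegral_mono (Measure.measurable_rnDeriv _ _)
          intro y hy
          exact le_of_lt hy
      _ ≤ mu b f (n, z) A := Measure.setLIntegral_rnDeriv_le _
  have hfin : mu b f (n, z) A ≠ ⊤ := measure_ne_top _ _
  have hvfin : volume A ≠ ⊤ := by
    intro h
    rw [h, ENNReal.mul_top (by simpa using ht0)] at h1
    exact hfin (top_le_iff.1 h1)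
  have h2 : mu b f (n, z) A ≤ (M : ℝ≥0∞) * ENNReal.ofReal β * (volume A) ^ (1 / 2 : ℝ) := by
    rw [mu_apply hf _ hAm]
    exact hM A hAm
  obtain ⟨m, hm⟩ : ∃ m : ℝ, m = (mu b f (n, z) A).toReal := ⟨_, rfl⟩
  obtain ⟨v, hv⟩ : ∃ v : ℝ, v = (volume A).toReal := ⟨_, rfl⟩
  have hm0 : 0 ≤ m := by rw [hm]; exact ENNReal.toReal_nonneg
  have hv0 : 0 ≤ v := by rw [hv]; exact ENNReal.toReal_nonneg
  have h3 : t * v ≤ m := by
    have := ENNReal.toReal_mono hfin h1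
    rwa [ENNReal.toReal_mul, ENNReal.toReal_ofReal ht0.le, ← hv, ← hm] at this
  have h4 : m ≤ M * β * Real.sqrt v := by
    have h5 : (M : ℝ≥0∞) * ENNReal.ofReal β * (volume A) ^ (1 / 2 : ℝ) ≠ ⊤ :=
      ENNReal.mul_ne_top (ENNReal.mul_ne_top ENNReal.coe_ne_top ENNReal.ofReal_ne_top)
        (ENNReal.rpow_ne_top_of_nonneg (by norm_num) hvfin)
    have := ENNReal.toReal_mono h5 h2
    rw [ENNReal.toReal_mul, ENNReal.toReal_mul, ENNReal.toReal_ofReal hβ0.le,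
      ← ENNReal.toReal_rpow, ← hv, ← hm, ENNReal.coe_toReal, ← Real.sqrt_eq_rpow] at this
    exact this
  have h5 : m ^ 2 ≤ (M : ℝ) ^ 2 * β ^ 2 * v := by
    have h6 : m ^ 2 ≤ (M * β * Real.sqrt v) ^ 2 := by gcongr
    calc m ^ 2 ≤ (M * β * Real.sqrt v) ^ 2 := h6
      _ = (M : ℝ) ^ 2 * β ^ 2 * (Real.sqrt v ^ 2) := by ring
      _ = (M : ℝ) ^ 2 * β ^ 2 * v := by rw [Real.sq_sqrt hv0]
  have h6 : (M : ℝ) ^ 2 * (b : ℝ) ^ (-((2 - α - s) * n)) * t = (M : ℝ) ^ 2 * β ^ 2 := by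
    rw [mul_assoc]
    congr 1
    rw [ht, hβ, ← Real.rpow_add hb0, ← Real.rpow_natCast, ← Real.rpow_mul hb0.le]
    congr 1
    push_cast
    ring
  have h7 : m ≤ (M : ℝ) ^ 2 * (b : ℝ) ^ (-((2 - α - s) * n)) := by
    rcases hm0.eq_or_lt with h0 | h0
    · rw [← h0]; positivity
    · have h8 : m * m ≤ (M : ℝ) ^ 2 * (b : ℝ) ^ (-((2 - α - s) * n)) * m := by
        calc m * m = m ^ 2 := by ring
          _ ≤ (M : ℝ) ^ 2 * β ^ 2 * v := h5
          _ = (M : ℝ) ^ 2 * (b : ℝ) ^ (-((2 - α - s) * n)) * (t * v) := by rw [← h6]; ring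
          _ ≤ (M : ℝ) ^ 2 * (b : ℝ) ^ (-((2 - α - s) * n)) * m := by gcongr
      exact le_of_mul_le_mul_right h8 h0
  rw [← ENNReal.ofReal_toReal hfin, ← hm]
  exact ENNReal.ofReal_le_ofReal h7

/-- the bad part of the density -/
noncomputable def HH (b : ℕ) (f : ℝ → ℝ) (s : ℝ) (t : ℕ × ℕ) (y : ℝ) : ℝ≥0∞ :=
  if t.2 < b ^ t.1 then (bad b f s t).indicator ((mu b f t).rnDeriv volume) y else 0

theorem HH_meas (b : ℕ) (f : ℝ → ℝ) (s : ℝ) (t : ℕ × ℕ) : Measurable (HH b f s t) := by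
  unfold HH
  split_ifs
  · exact (Measure.measurable_rnDeriv _ _).indicator (bad_meas b f s t)
  · exact measurable_const

theorem HH_int {b : ℕ} {α s : ℝ} (hb : 2 ≤ b) {f : ℝ → ℝ} (hf : Continuous f) {M : ℝ≥0}
    (hM : ∀ n z : ℕ, z < b ^ n → ∀ A : Set ℝ, MeasurableSet A →
    volume {x : ℝ | x ∈ Ico ((z : ℝ) / (b : ℝ) ^ n) (((z : ℝ) + 1) / (b : ℝ) ^ n) ∧ f x ∈ A} ≤
      (M : ℝ≥0∞) * ENNReal.ofReal ((b : ℝ) ^ (-((1 - α / 2) * n))) * (volume A) ^ (1 / 2 : ℝ))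
    (n z : ℕ) :
    ∫⁻ y, HH b f s (n, z) y ≤ if z < b ^ n then
      ENNReal.ofReal ((M : ℝ) ^ 2 * (b : ℝ) ^ (-((2 - α - s) * n))) else 0 := by
  unfold HH
  by_cases hz : z < b ^ n
  · simp only [hz, if_true]
    rw [lintegral_indicator (bad_meas b f s (n, z))]
    exact (Measure.setLIntegral_rnDeriv_le _).trans (bad_bound hb hf n z (hM n z hz))
  · simp only [hz, if_false, lintegral_zero, le_refl]

theorem HH_tsum {b : ℕ} {α s : ℝ} (hb : 2 ≤ b) (hs : s < 1 - α) {f : ℝ → ℝ} (hf : Continuous f)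
    {M : ℝ≥0} (hM : ∀ n z : ℕ, z < b ^ n → ∀ A : Set ℝ, MeasurableSet A →
    volume {x : ℝ | x ∈ Ico ((z : ℝ) / (b : ℝ) ^ n) (((z : ℝ) + 1) / (b : ℝ) ^ n) ∧ f x ∈ A} ≤
      (M : ℝ≥0∞) * ENNReal.ofReal ((b : ℝ) ^ (-((1 - α / 2) * n))) * (volume A) ^ (1 / 2 : ℝ)) :
    ∀ᵐ y : ℝ, ∑' t : ℕ × ℕ, HH b f s t y ≠ ⊤ := by
  have hb0 : (0 : ℝ) < b := by exact_mod_cast (by omega : 0 < b)
  have hb1 : (1 : ℝ) < b := by exact_mod_cast (by omega : 1 < b)
  have h1 : ∫⁻ y : ℝ, ∑' t : ℕ × ℕ, HH b f s t y ≠ ⊤ := by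
    rw [lintegral_tsum (fun t => (HH_meas b f s t).aemeasurable)]
    have h2 : ∑' t : ℕ × ℕ, ∫⁻ y, HH b f s t y ≤
        ∑' n : ℕ, ENNReal.ofReal ((M : ℝ) ^ 2 * ((b : ℝ) ^ (-(1 - α - s))) ^ n) := by
      calc ∑' t : ℕ × ℕ, ∫⁻ y, HH b f s t y ≤ ∑' t : ℕ × ℕ, (if t.2 < b ^ t.1 then
            ENNReal.ofReal ((M : ℝ) ^ 2 * (b : ℝ) ^ (-((2 - α - s) * t.1))) else 0) :=
            ENNReal.tsum_le_tsum fun t => HH_int hb hf hM t.1 t.2
        _ = ∑' n : ℕ, ∑' z : ℕ, (if z < b ^ n then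
            ENNReal.ofReal ((M : ℝ) ^ 2 * (b : ℝ) ^ (-((2 - α - s) * n))) else 0) :=
            ENNReal.tsum_prod (f := fun n z : ℕ => (if z < b ^ n then
            ENNReal.ofReal ((M : ℝ) ^ 2 * (b : ℝ) ^ (-((2 - α - s) * n))) else 0))
        _ = ∑' n : ℕ, ENNReal.ofReal ((M : ℝ) ^ 2 * ((b : ℝ) ^ (-(1 - α - s))) ^ n) := by
            refine tsum_congr fun n => ?_
            rw [tsum_eq_sum (s := Finset.range (b ^ n))
              (fun z hz => if_neg (by simpa using hz)),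
              Finset.sum_congr rfl (fun z hz => if_pos (by simpa using hz)), Finset.sum_const,
              Finset.card_range, nsmul_eq_mul]
            have e1 : ((b ^ n : ℕ) : ℝ≥0∞) = ENNReal.ofReal ((b : ℝ) ^ n) := by
              rw [ENNReal.ofReal_pow hb0.le, ENNReal.ofReal_natCast]
              push_cast
              rfl
            rw [e1, ← ENNReal.ofReal_mul (by positivity)]
            congr 1
            rw [← Real.rpow_natCast ((b : ℝ) ^ (-(1 - α - s))) n, ← Real.rpow_mul hb0.le,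
              ← Real.rpow_natCast (b : ℝ) n, mul_left_comm, ← Real.rpow_add hb0]
            congr 2
            ring
    refine ne_top_of_le_ne_top ?_ h2
    have hq0 : 0 ≤ (b : ℝ) ^ (-(1 - α - s)) := (Real.rpow_pos_of_pos hb0 _).le
    have hq1 : (b : ℝ) ^ (-(1 - α - s)) < 1 :=
      Real.rpow_lt_one_of_one_lt_of_neg hb1 (by linarith)
    have hsum : Summable fun n : ℕ => (M : ℝ) ^ 2 * ((b : ℝ) ^ (-(1 - α - s))) ^ n :=
      (summable_geometric_of_lt_one hq0 hq1).mul_left _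
    exact hsum.tsum_ofReal_ne_top
  exact ae_lt_top' (AEMeasurable.tsum fun t => (HH_meas b f s t).aemeasurable) h1 |>.mono
    fun y hy => hy.ne

/-- the covering inequality for balls -/
theorem cover {b : ℕ} {f : ℝ → ℝ} (hf : Continuous f) {y : ℝ} (T : Finset (ℕ × ℕ)) (U : Set ℝ)
    (hU : IsOpen U) (hZ : {x : ℝ | x ∈ Icc (0:ℝ) 1 ∧ f x = y} ⊆ U)
    (hT : ∀ x ∈ U ∩ Icc (0:ℝ) 1, ∃ t ∈ T,
      x ∈ Icc ((t.2 : ℝ) / (b : ℝ) ^ t.1) (((t.2 : ℝ) + 1) / (b : ℝ) ^ t.1)) :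
    ∃ r0 : ℝ, 0 < r0 ∧ ∀ r : ℝ, r ≤ r0 →
      (volume.restrict (Ico (0:ℝ) 1)).map f (closedBall y r) ≤
        ∑ t ∈ T, mu b f t (closedBall y r) := by
  have hK : IsCompact (Icc (0:ℝ) 1 \ U) := isCompact_Icc.diff hU
  obtain ⟨r0, hr0, hr⟩ : ∃ r0 : ℝ, 0 < r0 ∧ ∀ x ∈ Icc (0:ℝ) 1 \ U, r0 < |f x - y| := by
    rcases (Icc (0:ℝ) 1 \ U).eq_empty_or_nonempty with he | hne
    · exact ⟨1, one_pos, fun x hx => by rw [he] at hx; exact absurd hx (notMem_empty x)⟩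
    · obtain ⟨x0, hx0, hmin⟩ := hK.exists_isMinOn hne
        ((hf.sub continuous_const).abs.continuousOn (f := fun x => |f x - y|))
      have hpos : 0 < |f x0 - y| := by
        rw [abs_pos, sub_ne_zero]
        intro h
        exact hx0.2 (hZ ⟨hx0.1, h⟩)
      refine ⟨|f x0 - y| / 2, by linarith, fun x hx => ?_⟩
      have h1 : |f x0 - y| ≤ |f x - y| := hmin hx
      linarith
  refine ⟨r0, hr0, fun r hrr => ?_⟩
  rw [Measure.map_apply hf.measurable measurableSet_closedBall,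
    Measure.restrict_apply (hf.measurable measurableSet_closedBall)]
  have hsub : f ⁻¹' closedBall y r ∩ Ico (0:ℝ) 1 ⊆
      (⋃ t ∈ T, {x : ℝ | x ∈ cell b t ∧ f x ∈ closedBall y r}) ∪
      ((T.image fun t : ℕ × ℕ => ((t.2 : ℝ) + 1) / (b : ℝ) ^ t.1 : Finset ℝ) : Set ℝ) := by
    rintro x ⟨hx1, hx2⟩
    have hx3 : x ∈ U := by
      by_contra hxU
      have h1 := hr x ⟨⟨hx2.1, hx2.2.le⟩, hxU⟩
      have h2 : |f x - y| ≤ r := by
        have := mem_closedBall.1 hx1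
        rwa [Real.dist_eq] at this
      linarith
    obtain ⟨t, ht, hxt⟩ := hT x ⟨hx3, ⟨hx2.1, hx2.2.le⟩⟩
    rcases hxt.2.eq_or_lt with h | h
    · right
      rw [Finset.mem_coe, Finset.mem_image]
      exact ⟨t, ht, h.symm⟩
    · left
      rw [mem_iUnion₂]
      exact ⟨t, ht, ⟨hxt.1, h⟩, hx1⟩
  calc volume (f ⁻¹' closedBall y r ∩ Ico (0:ℝ) 1)
      ≤ volume ((⋃ t ∈ T, {x : ℝ | x ∈ cell b t ∧ f x ∈ closedBall y r}) ∪
      ((T.image fun t : ℕ × ℕ => ((t.2 : ℝ) + 1) / (b : ℝ) ^ t.1 : Finset ℝ) : Set ℝ)) :=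
        measure_mono hsub
    _ ≤ volume (⋃ t ∈ T, {x : ℝ | x ∈ cell b t ∧ f x ∈ closedBall y r}) +
      volume ((T.image fun t : ℕ × ℕ => ((t.2 : ℝ) + 1) / (b : ℝ) ^ t.1 : Finset ℝ) : Set ℝ) :=
        measure_union_le _ _
    _ = volume (⋃ t ∈ T, {x : ℝ | x ∈ cell b t ∧ f x ∈ closedBall y r}) := by
        rw [(Finset.finite_toSet _).measure_zero, add_zero]
    _ ≤ ∑ t ∈ T, volume {x : ℝ | x ∈ cell b t ∧ f x ∈ closedBall y r} :=
        measure_biUnion_finset_le _ _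
    _ = ∑ t ∈ T, mu b f t (closedBall y r) := by
        refine Finset.sum_congr rfl fun t _ => ?_
        rw [mu_apply hf t measurableSet_closedBall]

theorem lowm : S_LOWM := by
  intro b α s hb hα0 hα1 hs0 hs1 f hHol hUAC
  have hf := Hol_cont hα0 hHol
  obtain ⟨M, hM⟩ := hUAC
  have hb0 : (0 : ℝ) < b := by exact_mod_cast (by omega : 0 < b)
  set μ0 : Measure ℝ := (volume.restrict (Ico (0:ℝ) 1)).map f with hμ0
  have hfin0 : IsFiniteMeasure μ0 := by rw [hμ0]; infer_instance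
  have hac : μ0 ≪ volume := by
    refine Measure.AbsolutelyContinuous.mk fun A hA hA0 => ?_
    have h1 := hM 0 0 (by simp) A hA
    rw [hA0, ENNReal.zero_rpow_of_pos (by norm_num), mul_zero] at h1
    rw [hμ0, Measure.map_apply hf.measurable hA, Measure.restrict_apply (hf.measurable hA)]
    refine le_antisymm (le_trans (measure_mono ?_) h1) bot_le
    rintro x ⟨hx1, hx2⟩
    refine ⟨?_, hx1⟩
    simpa using hx2
  have a1 : ∀ᵐ y ∂μ0, 0 < μ0.rnDeriv volume y := Measure.rnDeriv_pos hac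
  have a2 : ∀ᵐ y ∂μ0, μ0.rnDeriv volume y < ⊤ := hac.ae_le (Measure.rnDeriv_lt_top μ0 volume)
  have a3 : ∀ᵐ y ∂μ0, Tendsto (fun r => μ0 (closedBall y r) / volume (closedBall y r))
      (𝓝[>] 0) (𝓝 (μ0.rnDeriv volume y)) := hac.ae_le (Besicovitch.ae_tendsto_rnDeriv μ0 volume)
  have a4 : ∀ᵐ y ∂μ0, ∀ t : ℕ × ℕ,
      Tendsto (fun r => mu b f t (closedBall y r) / volume (closedBall y r))
      (𝓝[>] 0) (𝓝 ((mu b f t).rnDeriv volume y)) := by
    rw [ae_all_iff]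
    intro t
    exact hac.ae_le (Besicovitch.ae_tendsto_rnDeriv (mu b f t) volume)
  have a5 : ∀ᵐ y ∂μ0, ∑' t : ℕ × ℕ, HH b f s t y ≠ ⊤ := hac.ae_le (HH_tsum hb hs1 hf hM)
  filter_upwards [a1, a2, a3, a4, a5] with y h1 h2 h3 h4 h5
  obtain ⟨ρ, hρ⟩ : ∃ ρ : ℝ≥0∞, ρ = μ0.rnDeriv volume y := ⟨_, rfl⟩
  rw [← hρ] at h1 h2 h3
  have hε : 0 < ρ / 2 := ENNReal.half_pos h1.ne'
  have hev := (ENNReal.tendsto_tsum_compl_atTop_zero h5).eventually (gt_mem_nhds hε)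
  obtain ⟨Fs, hFs⟩ := hev.exists
  refine ⟨Fs.sup Prod.fst + 1, (ρ / 2).toReal, ENNReal.toReal_pos hε.ne'
    (ENNReal.div_ne_top h2.ne (by norm_num)), ?_⟩
  rintro T hT1 ⟨U, hU, hZ, hT⟩
  obtain ⟨r0, hr0, hr⟩ := cover (b := b) hf T U hU hZ hT
  have g1 : ρ ≤ ∑ t ∈ T, (mu b f t).rnDeriv volume y := by
    refine le_of_tendsto_of_tendsto h3 (tendsto_finsetSum T fun t _ => h4 t) ?_
    have g2 : ∀ᶠ r : ℝ in 𝓝[>] 0, r ≤ r0 :=
      (eventually_le_nhds hr0).filter_mono nhdsWithin_le_nhds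
    filter_upwards [g2] with r hrr
    simp only [div_eq_mul_inv]
    rw [← Finset.sum_mul]
    exact mul_le_mul_left (hr r hrr) _
  have g3 : ∑ t ∈ T, (mu b f t).rnDeriv volume y ≤
      ∑ t ∈ T, ENNReal.ofReal ((b : ℝ) ^ (-(s * t.1))) + ∑ t ∈ T, HH b f s t y := by
    rw [← Finset.sum_add_distrib]
    refine Finset.sum_le_sum fun t ht => ?_
    by_cases hbad : y ∈ bad b f s t
    · unfold HH
      rw [if_pos (hT1 t ht).2, indicator_of_mem hbad]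
      exact le_add_self
    · refine le_trans ?_ le_self_add
      exact not_lt.1 hbad
  have g4 : ∑ t ∈ T, HH b f s t y ≤ ρ / 2 := by
    refine le_trans ?_ hFs.le
    rw [← Finset.tsum_subtype]
    refine ENNReal.tsum_mono_subtype (fun t => HH b f s t y) (s := (T : Set (ℕ × ℕ)))
      (t := {x | x ∉ Fs}) ?_
    intro t ht htF
    have h6 := (hT1 t ht).1
    have h7 : t.1 ≤ Fs.sup Prod.fst := Finset.le_sup (f := Prod.fst) htF
    omega
  have g5 : ρ / 2 ≤ ∑ t ∈ T, ENNReal.ofReal ((b : ℝ) ^ (-(s * t.1))) := by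
    have h6 : ρ / 2 + ρ / 2 ≤ ∑ t ∈ T, ENNReal.ofReal ((b : ℝ) ^ (-(s * t.1))) + ρ / 2 := by
      rw [ENNReal.add_halves]
      exact g1.trans (g3.trans (add_le_add_right g4 _))
    exact (ENNReal.add_le_add_iff_right (ENNReal.div_ne_top h2.ne (by norm_num))).1 h6
  have g6 : ∑ t ∈ T, ENNReal.ofReal ((b : ℝ) ^ (-(s * t.1))) =
      ENNReal.ofReal (∑ t ∈ T, (b : ℝ) ^ (-(s * t.1))) := by
    rw [ENNReal.ofReal_sum_of_nonneg]
    intro t _
    exact (Real.rpow_pos_of_pos hb0 _).le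
  rw [g6] at g5
  have g7 := ENNReal.toReal_mono ENNReal.ofReal_ne_top g5
  rwa [ENNReal.toReal_ofReal (Finset.sum_nonneg fun t _ =>
    (Real.rpow_pos_of_pos hb0 _).le)] at g7

end Pool.Agent.W397.WL
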